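import Mathlib

/-!
# The scalar inequality `G ≤ 3/1000` on admissible pairs of lines
-/

set_option autoImplicit false

namespace Pool.Agent.Helper29.CC

/-- the kernel in the invariants `t, S = a² + b², P = abc, C = c²` of two lines -/
noncomputable def G (t S P C : ℝ) : ℝ :=
  t ^ 4 + t ^ 2 * (4 / 3 * S + 8 / 27 * C - 17 / 39) + 32 / 27 * (t * P) + 4 / 27 * S ^ 2 -
    4 / 27 * S + 16 / 81 * (C * S) + 16 / 729 * C ^ 2 - 4 / 81 * C

theorem V0 (x x' y y' : ℝ) (hx : 0 ≤ x) (hx' : 0 ≤ x') (hy : 0 ≤ y) (hy' : 0 ≤ y')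
    (h1 : x' = 1 - x) (h2 : y' = 1 - y) :
    G (x / 2) 0 0 (y ^ 2) ≤ 3 / 1000 := by
  have e : 3 / 1000 - G (x / 2) 0 0 (y ^ 2) =
        (3 / 1000) * x' ^ 4 * y' ^ 4 +
        (3 / 250) * x' ^ 4 * y * y' ^ 3 +
        (2729 / 40500) * x' ^ 4 * y ^ 2 * y' ^ 2 +
        (2243 / 20250) * x' ^ 4 * y ^ 3 * y' +
        (22187 / 729000) * x' ^ 4 * y ^ 4 +
        (3 / 250) * x * x' ^ 3 * y' ^ 4 +
        (6 / 125) * x * x' ^ 3 * y * y' ^ 3 +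
        (2729 / 10125) * x * x' ^ 3 * y ^ 2 * y' ^ 2 +
        (4486 / 10125) * x * x' ^ 3 * y ^ 3 * y' +
        (22187 / 182250) * x * x' ^ 3 * y ^ 4 +
        (619 / 4875) * x ^ 2 * x' ^ 2 * y' ^ 4 +
        (2476 / 4875) * x ^ 2 * x' ^ 2 * y * y' ^ 3 +
        (14392 / 14625) * x ^ 2 * x' ^ 2 * y ^ 2 * y' ^ 2 +
        (13928 / 14625) * x ^ 2 * x' ^ 2 * y ^ 3 * y' +
        (85889 / 394875) * x ^ 2 * x' ^ 2 * y ^ 4 +
        (1121 / 4875) * x ^ 3 * x' * y' ^ 4 +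
        (4484 / 4875) * x ^ 3 * x' * y * y' ^ 3 +
        (188102 / 131625) * x ^ 3 * x' * y ^ 2 * y' ^ 2 +
        (134068 / 131625) * x ^ 3 * x' * y ^ 3 * y' +
        (226903 / 1184625) * x ^ 3 * x' * y ^ 4 +
        (3859 / 78000) * x ^ 4 * y' ^ 4 +
        (3859 / 19500) * x ^ 4 * y * y' ^ 3 +
        (286579 / 1053000) * x ^ 4 * y ^ 2 * y' ^ 2 +
        (78193 / 526500) * x ^ 4 * y ^ 3 * y' +
        (53737 / 18954000) * x ^ 4 * y ^ 4 := by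
    rw [h1, h2]
    simp only [G]
    ring
  have h : 0 ≤ 3 / 1000 - G (x / 2) 0 0 (y ^ 2) := by
    rw [e]
    positivity
  linarith

theorem V1 (x x' y y' : ℝ) (hx : 0 ≤ x) (hx' : 0 ≤ x') (hy : 0 ≤ y) (hy' : 0 ≤ y')
    (h1 : x' = 1 - x) (h2 : y' = 1 - y) :
    G (x / 2) ((1 - y) * (1 - x)) ((1 - y) * (1 - x) * y / 2) (y ^ 2) ≤ 3 / 1000 := by
  have e : 3 / 1000 - G (x / 2) ((1 - y) * (1 - x)) ((1 - y) * (1 - x) * y / 2) (y ^ 2) =
        (3 / 1000) * x' ^ 9 * y' ^ 6 +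
        (2243 / 13500) * x' ^ 9 * y * y' ^ 5 +
        (881 / 1800) * x' ^ 9 * y ^ 2 * y' ^ 4 +
        (2243 / 4050) * x' ^ 9 * y ^ 3 * y' ^ 3 +
        (46561 / 145800) * x' ^ 9 * y ^ 4 * y' ^ 2 +
        (44561 / 364500) * x' ^ 9 * y ^ 5 * y' +
        (22187 / 729000) * x' ^ 9 * y ^ 6 +
        (4729 / 27000) * x * x' ^ 8 * y' ^ 6 +
        (22187 / 13500) * x * x' ^ 8 * y * y' ^ 5 +
        (60161 / 16200) * x * x' ^ 8 * y ^ 2 * y' ^ 4 +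
        (4729 / 1350) * x * x' ^ 8 * y ^ 3 * y' ^ 3 +
        (29761 / 16200) * x * x' ^ 8 * y ^ 4 * y' ^ 2 +
        (34561 / 40500) * x * x' ^ 8 * y ^ 5 * y' +
        (22187 / 81000) * x * x' ^ 8 * y ^ 6 +
        (161579 / 175500) * x ^ 2 * x' ^ 7 * y' ^ 6 +
        (171329 / 29250) * x ^ 2 * x' ^ 7 * y * y' ^ 5 +
        (1117511 / 105300) * x ^ 2 * x' ^ 7 * y ^ 2 * y' ^ 4 +
        (68629 / 8775) * x ^ 2 * x' ^ 7 * y ^ 3 * y' ^ 3 +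
        (396011 / 105300) * x ^ 2 * x' ^ 7 * y ^ 4 * y' ^ 2 +
        (80329 / 29250) * x ^ 2 * x' ^ 7 * y ^ 5 * y' +
        (595237 / 526500) * x ^ 2 * x' ^ 7 * y ^ 6 +
        (124367 / 58500) * x ^ 3 * x' ^ 6 * y' ^ 6 +
        (930803 / 87750) * x ^ 3 * x' ^ 6 * y * y' ^ 5 +
        (1553509 / 105300) * x ^ 3 * x' ^ 6 * y ^ 2 * y' ^ 4 +
        (19067 / 2925) * x ^ 3 * x' ^ 6 * y ^ 3 * y' ^ 3 +
        (1067327 / 315900) * x ^ 3 * x' ^ 6 * y ^ 4 * y' ^ 2 +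
        (4685227 / 789750) * x ^ 3 * x' ^ 6 * y ^ 5 * y' +
        (4423909 / 1579500) * x ^ 3 * x' ^ 6 * y ^ 6 +
        (1957981 / 702000) * x ^ 4 * x' ^ 5 * y' ^ 6 +
        (3988943 / 351000) * x ^ 4 * x' ^ 5 * y * y' ^ 5 +
        (4637429 / 421200) * x ^ 4 * x' ^ 5 * y ^ 2 * y' ^ 4 +
        (181 / 35100) * x ^ 4 * x' ^ 5 * y ^ 3 * y' ^ 3 +
        (1262629 / 421200) * x ^ 4 * x' ^ 5 * y ^ 4 * y' ^ 2 +
        (10458829 / 1053000) * x ^ 4 * x' ^ 5 * y ^ 5 * y' +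
        (9487943 / 2106000) * x ^ 4 * x' ^ 5 * y ^ 6 +
        (1683481 / 702000) * x ^ 5 * x' ^ 4 * y' ^ 6 +
        (335827 / 39000) * x ^ 5 * x' ^ 4 * y * y' ^ 5 +
        (2910529 / 421200) * x ^ 5 * x' ^ 4 * y ^ 2 * y' ^ 4 +
        (19481 / 35100) * x ^ 5 * x' ^ 4 * y ^ 3 * y' ^ 3 +
        (3191329 / 421200) * x ^ 5 * x' ^ 4 * y ^ 4 * y' ^ 2 +
        (4374443 / 351000) * x ^ 5 * x' ^ 4 * y ^ 5 * y' +
        (9990443 / 2106000) * x ^ 5 * x' ^ 4 * y ^ 6 +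
        (181609 / 117000) * x ^ 6 * x' ^ 3 * y' ^ 6 +
        (1055981 / 175500) * x ^ 6 * x' ^ 3 * y * y' ^ 5 +
        (1687243 / 210600) * x ^ 6 * x' ^ 3 * y ^ 2 * y' ^ 4 +
        (148327 / 17550) * x ^ 6 * x' ^ 3 * y ^ 3 * y' ^ 3 +
        (7789129 / 631800) * x ^ 6 * x' ^ 3 * y ^ 4 * y' ^ 2 +
        (16705829 / 1579500) * x ^ 6 * x' ^ 3 * y ^ 5 * y' +
        (9960443 / 3159000) * x ^ 6 * x' ^ 3 * y ^ 6 +
        (283783 / 351000) * x ^ 7 * x' ^ 2 * y' ^ 6 +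
        (682349 / 175500) * x ^ 7 * x' ^ 2 * y * y' ^ 5 +
        (1659647 / 210600) * x ^ 7 * x' ^ 2 * y ^ 2 * y' ^ 4 +
        (182383 / 17550) * x ^ 7 * x' ^ 2 * y ^ 3 * y' ^ 3 +
        (2075647 / 210600) * x ^ 7 * x' ^ 2 * y ^ 4 * y' ^ 2 +
        (2879047 / 526500) * x ^ 7 * x' ^ 2 * y ^ 5 * y' +
        (1267349 / 1053000) * x ^ 7 * x' ^ 2 * y ^ 6 +
        (205079 / 702000) * x ^ 8 * x' * y' ^ 6 +
        (192079 / 117000) * x ^ 8 * x' * y * y' ^ 5 +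
        (1622111 / 421200) * x ^ 8 * x' * y ^ 2 * y' ^ 4 +
        (176479 / 35100) * x ^ 8 * x' * y ^ 3 * y' ^ 3 +
        (1606511 / 421200) * x ^ 8 * x' * y ^ 4 * y' ^ 2 +
        (524237 / 351000) * x ^ 8 * x' * y ^ 5 * y' +
        (433237 / 2106000) * x ^ 8 * x' * y ^ 6 +
        (3859 / 78000) * x ^ 9 * y' ^ 6 +
        (3859 / 13000) * x ^ 9 * y * y' ^ 5 +
        (302179 / 421200) * x ^ 9 * y ^ 2 * y' ^ 4 +
        (93793 / 105300) * x ^ 9 * y ^ 3 * y' ^ 3 +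
        (2168411 / 3790800) * x ^ 9 * y ^ 4 * y' ^ 2 +
        (1461211 / 9477000) * x ^ 9 * y ^ 5 * y' +
        (53737 / 18954000) * x ^ 9 * y ^ 6 := by
    rw [h1, h2]
    simp only [G]
    ring
  have h : 0 ≤ 3 / 1000 - G (x / 2) ((1 - y) * (1 - x)) ((1 - y) * (1 - x) * y / 2) (y ^ 2) := by
    rw [e]
    positivity
  linarith

theorem VA (x x' y y' : ℝ) (hx : 0 ≤ x) (hx' : 0 ≤ x') (hy : 0 ≤ y) (hy' : 0 ≤ y')
    (h1 : x' = 1 - x) (h2 : y' = 1 - y) :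
    G (x * y / 2) (1 - y ^ 2) (-(x * y / 2 * (1 - y ^ 2))) (y ^ 2) ≤ 3 / 1000 := by
  have e : 3 / 1000 - G (x * y / 2) (1 - y ^ 2) (-(x * y / 2 * (1 - y ^ 2))) (y ^ 2) =
        (3 / 1000) * x' ^ 4 * y' ^ 4 +
        (3 / 250) * x' ^ 4 * y * y' ^ 3 +
        (9 / 500) * x' ^ 4 * y ^ 2 * y' ^ 2 +
        (3 / 250) * x' ^ 4 * y ^ 3 * y' +
        (22187 / 729000) * x' ^ 4 * y ^ 4 +
        (3 / 250) * x * x' ^ 3 * y' ^ 4 +
        (6 / 125) * x * x' ^ 3 * y * y' ^ 3 +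
        (9 / 125) * x * x' ^ 3 * y ^ 2 * y' ^ 2 +
        (6 / 125) * x * x' ^ 3 * y ^ 3 * y' +
        (22187 / 182250) * x * x' ^ 3 * y ^ 4 +
        (9 / 500) * x ^ 2 * x' ^ 2 * y' ^ 4 +
        (9 / 125) * x ^ 2 * x' ^ 2 * y * y' ^ 3 +
        (31579 / 175500) * x ^ 2 * x' ^ 2 * y ^ 2 * y' ^ 2 +
        (18943 / 87750) * x ^ 2 * x' ^ 2 * y ^ 3 * y' +
        (85889 / 394875) * x ^ 2 * x' ^ 2 * y ^ 4 +
        (3 / 250) * x ^ 3 * x' * y' ^ 4 +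
        (6 / 125) * x ^ 3 * x' * y * y' ^ 3 +
        (18943 / 87750) * x ^ 3 * x' * y ^ 2 * y' ^ 2 +
        (14731 / 43875) * x ^ 3 * x' * y ^ 3 * y' +
        (226903 / 1184625) * x ^ 3 * x' * y ^ 4 +
        (3 / 1000) * x ^ 4 * y' ^ 4 +
        (3 / 250) * x ^ 4 * y * y' ^ 3 +
        (3946 / 43875) * x ^ 4 * y ^ 2 * y' ^ 2 +
        (6839 / 43875) * x ^ 4 * y ^ 3 * y' +
        (53737 / 18954000) * x ^ 4 * y ^ 4 := by
    rw [h1, h2]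
    simp only [G]
    ring
  have h : 0 ≤ 3 / 1000 - G (x * y / 2) (1 - y ^ 2) (-(x * y / 2 * (1 - y ^ 2))) (y ^ 2) := by
    rw [e]
    positivity
  linarith

theorem VB (x x' y y' : ℝ) (hx : 0 ≤ x) (hx' : 0 ≤ x') (hy : 0 ≤ y) (hy' : 0 ≤ y')
    (h1 : x' = 1 - x) (h2 : y' = 1 - y) :
    G (x / 2) ((1 + x * y) * (1 - x)) (-((1 + x * y) * (1 - x) * (x * y) / 2)) ((x * y) ^ 2) ≤ 3 / 1000 := by
  have e : 3 / 1000 - G (x / 2) ((1 + x * y) * (1 - x)) (-((1 + x * y) * (1 - x) * (x * y) / 2)) ((x * y) ^ 2) =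
        (3 / 1000) * x' ^ 4 * y' ^ 4 +
        (3 / 250) * x' ^ 4 * y * y' ^ 3 +
        (9 / 500) * x' ^ 4 * y ^ 2 * y' ^ 2 +
        (3 / 250) * x' ^ 4 * y ^ 3 * y' +
        (3 / 1000) * x' ^ 4 * y ^ 4 +
        (1081 / 6750) * x * x' ^ 3 * y' ^ 4 +
        (554 / 1125) * x * x' ^ 3 * y * y' ^ 3 +
        (581 / 1125) * x * x' ^ 3 * y ^ 2 * y' ^ 2 +
        (662 / 3375) * x * x' ^ 3 * y ^ 3 * y' +
        (3 / 250) * x * x' ^ 3 * y ^ 4 +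
        (3946 / 43875) * x ^ 2 * x' ^ 2 * y' ^ 4 +
        (28784 / 43875) * x ^ 2 * x' ^ 2 * y * y' ^ 3 +
        (49676 / 43875) * x ^ 2 * x' ^ 2 * y ^ 2 * y' ^ 2 +
        (28784 / 43875) * x ^ 2 * x' ^ 2 * y ^ 3 * y' +
        (3946 / 43875) * x ^ 2 * x' ^ 2 * y ^ 4 +
        (1964 / 43875) * x ^ 3 * x' * y' ^ 4 +
        (12731 / 43875) * x ^ 3 * x' * y * y' ^ 3 +
        (105227 / 131625) * x ^ 3 * x' * y ^ 2 * y' ^ 2 +
        (93443 / 131625) * x ^ 3 * x' * y ^ 3 * y' +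
        (6839 / 43875) * x ^ 3 * x' * y ^ 4 +
        (3859 / 78000) * x ^ 4 * y' ^ 4 +
        (3859 / 19500) * x ^ 4 * y * y' ^ 3 +
        (286579 / 1053000) * x ^ 4 * y ^ 2 * y' ^ 2 +
        (78193 / 526500) * x ^ 4 * y ^ 3 * y' +
        (53737 / 18954000) * x ^ 4 * y ^ 4 := by
    rw [h1, h2]
    simp only [G]
    ring
  have h : 0 ≤ 3 / 1000 - G (x / 2) ((1 + x * y) * (1 - x)) (-((1 + x * y) * (1 - x) * (x * y) / 2)) ((x * y) ^ 2) := by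
    rw [e]
    positivity
  linarith


theorem quad_le (g m n s0 s1 S e : ℝ) (hg : 0 ≤ g) (h0 : s0 ≤ S) (h1 : S ≤ s1)
    (e0 : g * s0 ^ 2 + m * s0 + n ≤ e) (e1 : g * s1 ^ 2 + m * s1 + n ≤ e) :
    g * S ^ 2 + m * S + n ≤ e := by
  rcases (h0.trans h1).lt_or_eq with h | h
  · have hpos : 0 < s1 - s0 := by linarith
    have k1 : 0 ≤ (s1 - S) * (e - (g * s0 ^ 2 + m * s0 + n)) :=
      mul_nonneg (by linarith) (by linarith)
    have k2 : 0 ≤ (S - s0) * (e - (g * s1 ^ 2 + m * s1 + n)) :=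
      mul_nonneg (by linarith) (by linarith)
    have k3 : 0 ≤ g * ((S - s0) * (s1 - S) * (s1 - s0)) :=
      mul_nonneg hg (mul_nonneg (mul_nonneg (by linarith) (by linarith)) hpos.le)
    have k4 : (s1 - s0) * (e - (g * S ^ 2 + m * S + n)) =
        (s1 - S) * (e - (g * s0 ^ 2 + m * s0 + n)) + (S - s0) * (e - (g * s1 ^ 2 + m * s1 + n)) +
          g * ((S - s0) * (s1 - S) * (s1 - s0)) := by ring
    have k5 : 0 ≤ (s1 - s0) * (e - (g * S ^ 2 + m * S + n)) := by rw [k4]; linarith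
    have k6 := nonneg_of_mul_nonneg_right k5 hpos
    linarith
  · have hS : S = s0 := le_antisymm (by linarith) h0
    rw [hS]
    exact e0

theorem exists_ratio (p q : ℝ) (hp : 0 ≤ p) (hpq : p ≤ q) :
    ∃ x : ℝ, 0 ≤ x ∧ 0 ≤ 1 - x ∧ x * q = p := by
  rcases (hp.trans hpq).lt_or_eq with h | h
  · refine ⟨p / q, by positivity, ?_, by field_simp⟩
    have : p / q ≤ 1 := (div_le_one h).2 hpq
    linarith
  · refine ⟨0, le_rfl, by norm_num, ?_⟩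
    have : p = 0 := le_antisymm (by linarith) hp
    rw [this, zero_mul]

/-- the inequality for `t ≥ 0` -/
theorem G_le_pos (t r S P : ℝ) (ht : 0 ≤ t) (ht2 : t ≤ 1 / 2) (hr : 0 ≤ r) (hr1 : r ≤ 1)
    (hS : 0 ≤ S) (hSk : S ≤ 1 - r ^ 2) (hP1 : -(r * S / 2) ≤ P) (hP2 : P ≤ r * S / 2)
    (hP3 : P ≤ (1 - r ^ 2 - S) / 2 - t * (1 - r ^ 2)) :
    G t S P (r ^ 2) ≤ 3 / 1000 := by
  have hSm : S ≤ (1 + r) * (1 - 2 * t) := by
    rcases hr1.lt_or_eq with h | h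
    · have h1 : 0 < 1 - r := by linarith
      have h2 : 0 ≤ (1 - r) * ((1 + r) * (1 - 2 * t) - S) := by nlinarith
      have h3 := nonneg_of_mul_nonneg_right h2 h1
      linarith
    · subst h
      nlinarith
  have e0 : G t 0 0 (r ^ 2) ≤ 3 / 1000 := by
    have := V0 (2 * t) (1 - 2 * t) r (1 - r) (by linarith) (by linarith) hr (by linarith) rfl rfl
    rwa [show 2 * t / 2 = t by ring] at this
  have e1 : G t ((1 - r) * (1 - 2 * t)) ((1 - r) * (1 - 2 * t) * r / 2) (r ^ 2) ≤ 3 / 1000 := by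
    have := V1 (2 * t) (1 - 2 * t) r (1 - r) (by linarith) (by linarith) hr (by linarith) rfl rfl
    rwa [show 2 * t / 2 = t by ring] at this
  rcases le_total S ((1 - r) * (1 - 2 * t)) with hc | hc
  · have k1 : G t S P (r ^ 2) ≤ G t S (r * S / 2) (r ^ 2) := by
      have := mul_le_mul_of_nonneg_left hP2 ht
      simp only [G]
      linarith
    have k2 := quad_le (4 / 27) (4 / 3 * t ^ 2 + 16 / 27 * (t * r) - 4 / 27 + 16 / 81 * r ^ 2)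
      (t ^ 4 + t ^ 2 * (8 / 27 * r ^ 2 - 17 / 39) + 16 / 729 * (r ^ 2) ^ 2 - 4 / 81 * r ^ 2)
      0 ((1 - r) * (1 - 2 * t)) S (3 / 1000) (by norm_num) hS hc
      (by
        refine le_trans (le_of_eq ?_) e0
        simp only [G]
        ring)
      (by
        refine le_trans (le_of_eq ?_) e1
        simp only [G]
        ring)
    refine k1.trans (le_trans (le_of_eq ?_) k2)
    simp only [G]
    ring
  · have k1 : G t S P (r ^ 2) ≤ G t S ((1 - r ^ 2 - S) / 2 - t * (1 - r ^ 2)) (r ^ 2) := by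
      have := mul_le_mul_of_nonneg_left hP3 ht
      simp only [G]
      linarith
    have key : ∀ s : ℝ, S ≤ s →
        G t s ((1 - r ^ 2 - s) / 2 - t * (1 - r ^ 2)) (r ^ 2) ≤ 3 / 1000 →
        G t S P (r ^ 2) ≤ 3 / 1000 := by
      intro s hs es
      have k2 := quad_le (4 / 27) (4 / 3 * t ^ 2 - 16 / 27 * t - 4 / 27 + 16 / 81 * r ^ 2)
        (t ^ 4 + t ^ 2 * (8 / 27 * r ^ 2 - 17 / 39) + 16 / 729 * (r ^ 2) ^ 2 - 4 / 81 * r ^ 2 +
          32 / 27 * (t * ((1 - r ^ 2) / 2 - t * (1 - r ^ 2))))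
        ((1 - r) * (1 - 2 * t)) s S (3 / 1000) (by norm_num) hc hs
        (by
          refine le_trans (le_of_eq ?_) e1
          simp only [G]
          ring)
        (by
          refine le_trans (le_of_eq ?_) es
          simp only [G]
          ring)
      refine k1.trans (le_trans (le_of_eq ?_) k2)
      simp only [G]
      ring
    rcases le_total (2 * t) r with h | h
    · obtain ⟨x, hx, hx', hxr⟩ := exists_ratio (2 * t) r (by linarith) h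
      have e2 := VA x (1 - x) r (1 - r) hx hx' hr (by linarith) rfl rfl
      rw [hxr, show 2 * t / 2 = t by ring] at e2
      refine key (1 - r ^ 2) hSk ?_
      rwa [show (1 - r ^ 2 - (1 - r ^ 2)) / 2 - t * (1 - r ^ 2) = -(t * (1 - r ^ 2)) by ring]
    · obtain ⟨y, hy, hy', hyt⟩ := exists_ratio r (2 * t) hr h
      have e2 := VB (2 * t) (1 - 2 * t) y (1 - y) (by linarith) (by linarith) hy hy' rfl rfl
      rw [mul_comm (2 * t) y, hyt, show 2 * t / 2 = t by ring] at e2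
      refine key ((1 + r) * (1 - 2 * t)) hSm ?_
      rwa [show (1 - r ^ 2 - (1 + r) * (1 - 2 * t)) / 2 - t * (1 - r ^ 2) =
        -((1 + r) * (1 - 2 * t) * r / 2) by ring]

theorem G_le_aux (t a b c : ℝ) (ht : 0 ≤ t) (ht2 : t ≤ 1 / 2) (hc : c ^ 2 ≤ 1)
    (h1 : 2 * (t * (1 - c ^ 2) + a * b * c) ≤ 1 - c ^ 2 - (a ^ 2 + b ^ 2))
    (h2 : -(2 * (t * (1 - c ^ 2) + a * b * c)) ≤ 1 - c ^ 2 - (a ^ 2 + b ^ 2)) :
    G t (a ^ 2 + b ^ 2) (a * b * c) (c ^ 2) ≤ 3 / 1000 := by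
  have hr : |c| ^ 2 = c ^ 2 := sq_abs c
  have hr1 : |c| ≤ 1 := by
    rw [abs_le]
    constructor <;> nlinarith
  have hP : |a * b * c| ≤ |c| * (a ^ 2 + b ^ 2) / 2 := by
    rw [abs_mul, abs_mul]
    have h3 : |a| * |b| ≤ (a ^ 2 + b ^ 2) / 2 := by
      have := sq_nonneg (|a| - |b|)
      have ha := sq_abs a
      have hb := sq_abs b
      nlinarith
    have h4 := mul_le_mul_of_nonneg_left h3 (abs_nonneg c)
    linarith
  obtain ⟨hP1, hP2⟩ := abs_le.1 hP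
  have key := G_le_pos t |c| (a ^ 2 + b ^ 2) (a * b * c) ht ht2 (abs_nonneg c) hr1 (by positivity)
    (by rw [hr]; linarith) hP1 hP2 (by rw [hr]; linarith)
  rwa [hr] at key

/-- the inequality on admissible pairs -/
theorem G_le (t a b c : ℝ) (ht : |t| ≤ 1 / 2) (hc : c ^ 2 ≤ 1)
    (h1 : 2 * (t * (1 - c ^ 2) + a * b * c) ≤ 1 - c ^ 2 - (a ^ 2 + b ^ 2))
    (h2 : -(2 * (t * (1 - c ^ 2) + a * b * c)) ≤ 1 - c ^ 2 - (a ^ 2 + b ^ 2)) :
    G t (a ^ 2 + b ^ 2) (a * b * c) (c ^ 2) ≤ 3 / 1000 := by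
  obtain ⟨ht1, ht2⟩ := abs_le.1 ht
  rcases le_total 0 t with h | h
  · exact G_le_aux t a b c h ht2 hc h1 h2
  · have k := G_le_aux (-t) (-a) b c (by linarith) (by linarith) hc
      (by
        have : 2 * (-t * (1 - c ^ 2) + -a * b * c) = -(2 * (t * (1 - c ^ 2) + a * b * c)) := by ring
        rw [this, neg_sq]
        exact h2)
      (by
        have : -(2 * (-t * (1 - c ^ 2) + -a * b * c)) = 2 * (t * (1 - c ^ 2) + a * b * c) := by ring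
        rw [this, neg_sq]
        exact h1)
    refine le_trans (le_of_eq ?_) k
    simp only [G]
    ring

end Pool.Agent.Helper29.CC
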