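import Pool.Agent.Helper29.CC.Kernel
import Pool.Agent.Helper29.CC.Scalar

/-!
# At most six lines with `G ≤ 3/1000` for all pairs
-/

set_option autoImplicit false

namespace Pool.Agent.Helper29.CC

/-- the four vectors attached to a line `2u + ℝn` -/
def vec (x : (Fin 4 → ℝ) × (Fin 4 → ℝ)) : Fin 4 → (Fin 4 → ℝ) :=
  ![x.1, x.2, x.1 + x.2, x.1 - x.2]

/-- their weights -/
noncomputable def wt : Fin 4 → ℝ := ![7 / 9, -(2 / 27), 1 / 9, 1 / 9]

theorem dt_comm (v w : Fin 4 → ℝ) : dt v w = dt w v := by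
  simp only [dt]
  ring

theorem dt_add_left (v w x : Fin 4 → ℝ) : dt (v + w) x = dt v x + dt w x := by
  simp only [dt, Pi.add_apply]
  ring

theorem dt_add_right (v w x : Fin 4 → ℝ) : dt x (v + w) = dt x v + dt x w := by
  simp only [dt, Pi.add_apply]
  ring

theorem dt_sub_left (v w x : Fin 4 → ℝ) : dt (v - w) x = dt v x - dt w x := by
  simp only [dt, Pi.sub_apply]
  ring

theorem dt_sub_right (v w x : Fin 4 → ℝ) : dt x (v - w) = dt x v - dt x w := by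
  simp only [dt, Pi.sub_apply]
  ring

/-- value of the quartic part -/
theorem K_val (u n u' n' : Fin 4 → ℝ) (hu : dt u u = 1) (hn : dt n n = 1)
    (hu' : dt u' u' = 1) (hn' : dt n' n' = 1) (hun : dt u n = 0) (hun' : dt u' n' = 0) :
    ∑ e, ∑ f, wt e * wt f * K (vec (u, n) e) (vec (u', n') f) =
      dt u u' ^ 4 + 4 / 3 * dt u u' ^ 2 * (dt u n' ^ 2 + dt u' n ^ 2) +
        4 / 27 * (dt u n' ^ 4 + dt u' n ^ 4) +
        8 / 27 * (dt u u' ^ 2 * dt n n' ^ 2 + dt u n' ^ 2 * dt u' n ^ 2 +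
          4 * dt u u' * (dt u n' * dt u' n * dt n n')) +
        16 / 81 * dt n n' ^ 2 * (dt u n' ^ 2 + dt u' n ^ 2) + 16 / 729 * dt n n' ^ 4 -
        3 / 4 * ((11 / 9) ^ 2 * dt u u' ^ 2 +
          (11 / 9) * (10 / 27) * (dt u n' ^ 2 + dt u' n ^ 2) + (10 / 27) ^ 2 * dt n n' ^ 2) +
        (43 / 27) ^ 2 / 16 := by
  have hnu : dt n u = 0 := by rw [dt_comm]; exact hun
  have hnu' : dt n' u' = 0 := by rw [dt_comm]; exact hun'
  have hb : dt n u' = dt u' n := dt_comm _ _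
  simp only [Fin.sum_univ_four, wt, vec, K, Fin.isValue, Matrix.cons_val_zero, Matrix.cons_val_one,
    Matrix.cons_val, dt_add_left, dt_add_right, dt_sub_left, dt_sub_right, hu, hn, hu', hn', hun,
    hun', hnu, hnu', hb]
  ring

/-- the kernel of a pair of lines -/
noncomputable def F (x y : (Fin 4 → ℝ) × (Fin 4 → ℝ)) : ℝ :=
  961 / 1404 * (∑ p, ∑ q, Q (26 / 93) x p q * Q (26 / 93) y p q) +
    ∑ e, ∑ f, wt e * wt f * K (vec x e) (vec y f)

theorem F_val (u n u' n' : Fin 4 → ℝ) (hu : dt u u = 1) (hn : dt n n = 1)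
    (hu' : dt u' u' = 1) (hn' : dt n' n' = 1) (hun : dt u n = 0) (hun' : dt u' n' = 0) :
    F (u, n) (u', n') =
      G (dt u u') (dt u n' ^ 2 + dt u' n ^ 2) (dt u n' * dt u' n * dt n n') (dt n n' ^ 2) -
        9223 / 75816 := by
  rw [F, Q_val _ u n u' n' hu hn hu' hn', K_val u n u' n' hu hn hu' hn' hun hun']
  simp only [G]
  ring

theorem F_sum (N : ℕ) (x : Fin N → (Fin 4 → ℝ) × (Fin 4 → ℝ)) :
    0 ≤ ∑ i, ∑ j, F (x i) (x j) := by
  have h1 := psdQ (26 / 93) (Fin N) (fun _ => 1) x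
  have h2 := psdK (Fin N × Fin 4) (fun z => wt z.2) (fun z => vec (x z.1) z.2)
  have e1 : ∑ i, ∑ j, F (x i) (x j) =
      961 / 1404 * (∑ i, ∑ j, (1 : ℝ) * 1 *
        ∑ p, ∑ q, Q (26 / 93) (x i) p q * Q (26 / 93) (x j) p q) +
      ∑ i, ∑ j, ∑ e, ∑ f, wt e * wt f * K (vec (x i) e) (vec (x j) f) := by
    rw [Finset.mul_sum, ← Finset.sum_add_distrib]
    refine Finset.sum_congr rfl fun i _ => ?_
    rw [Finset.mul_sum, ← Finset.sum_add_distrib]
    refine Finset.sum_congr rfl fun j _ => ?_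
    rw [F]
    ring
  have e2 : ∑ z : Fin N × Fin 4, ∑ z' : Fin N × Fin 4,
      wt z.2 * wt z'.2 * K (vec (x z.1) z.2) (vec (x z'.1) z'.2) =
      ∑ i, ∑ j, ∑ e, ∑ f, wt e * wt f * K (vec (x i) e) (vec (x j) f) := by
    rw [Fintype.sum_prod_type]
    refine Finset.sum_congr rfl fun i _ => ?_
    rw [Finset.sum_comm]
    rw [Fintype.sum_prod_type]
    refine Finset.sum_congr rfl fun j _ => ?_
    rw [Finset.sum_comm]
  rw [e1]
  rw [e2] at h2
  have h3 : (0 : ℝ) ≤ 961 / 1404 * (∑ i, ∑ j, (1 : ℝ) * 1 *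
        ∑ p, ∑ q, Q (26 / 93) (x i) p q * Q (26 / 93) (x j) p q) := mul_nonneg (by norm_num) h1
  linarith

/-- **Counting.** -/
theorem count (N : ℕ) (u n : Fin N → Fin 4 → ℝ) (hu : ∀ i, dt (u i) (u i) = 1)
    (hn : ∀ i, dt (n i) (n i) = 1) (hun : ∀ i, dt (u i) (n i) = 0)
    (hG : ∀ i j, i ≠ j → G (dt (u i) (u j)) (dt (u i) (n j) ^ 2 + dt (u j) (n i) ^ 2)
      (dt (u i) (n j) * dt (u j) (n i) * dt (n i) (n j)) (dt (n i) (n j) ^ 2) ≤ 3 / 1000) :
    N ≤ 6 := by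
  by_contra hN
  have hN7 : 7 ≤ N := by omega
  have h0 := F_sum N fun i => (u i, n i)
  have hd : ∀ i, F (u i, n i) (u i, n i) = 53929 / 75816 := by
    intro i
    rw [F_val _ _ _ _ (hu i) (hn i) (hu i) (hn i) (hun i) (hun i), hu i, hn i, hun i]
    simp only [G]
    norm_num
  have ho : ∀ i j, i ≠ j → F (u i, n i) (u j, n j) ≤ 3 / 1000 - 9223 / 75816 := by
    intro i j hij
    rw [F_val _ _ _ _ (hu i) (hn i) (hu j) (hn j) (hun i) (hun j)]
    have := hG i j hij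
    linarith
  have h1 : ∀ i, ∑ j, F (u i, n i) (u j, n j) ≤
      53929 / 75816 + ((N : ℝ) - 1) * (3 / 1000 - 9223 / 75816) := by
    intro i
    rw [← Finset.add_sum_erase Finset.univ _ (Finset.mem_univ i), hd i]
    have h2 : ∑ j ∈ Finset.univ.erase i, F (u i, n i) (u j, n j) ≤
        ∑ _j ∈ (Finset.univ : Finset (Fin N)).erase i, (3 / 1000 - 9223 / 75816 : ℝ) := by
      refine Finset.sum_le_sum fun j hj => ho i j ?_
      exact (Finset.ne_of_mem_erase hj).symm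
    rw [Finset.sum_const, Finset.card_erase_of_mem (Finset.mem_univ i), Finset.card_univ,
      Fintype.card_fin, nsmul_eq_mul, Nat.cast_sub (by omega), Nat.cast_one] at h2
    linarith
  have h3 : ∑ i, ∑ j, F (u i, n i) (u j, n j) ≤
      ∑ _i : Fin N, ((53929 / 75816 : ℝ) + ((N : ℝ) - 1) * (3 / 1000 - 9223 / 75816)) :=
    Finset.sum_le_sum fun i _ => h1 i
  rw [Finset.sum_const, Finset.card_univ, Fintype.card_fin, nsmul_eq_mul] at h3
  have hNr : (7 : ℝ) ≤ N := by exact_mod_cast hN7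
  have h4 : (53929 / 75816 : ℝ) + ((N : ℝ) - 1) * (3 / 1000 - 9223 / 75816) < 0 := by
    nlinarith
  have h5 : (N : ℝ) * ((53929 / 75816 : ℝ) + ((N : ℝ) - 1) * (3 / 1000 - 9223 / 75816)) < 0 :=
    mul_neg_of_pos_of_neg (by linarith) h4
  linarith

end Pool.Agent.Helper29.CC
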