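import Pool.Agent.Helper29.CC.Count
import Pool.Agent.Helper69.KC.BOD
import Pool.Agent.Helper4.KC.A2C

/-!
# From cylinders to the invariants of pairs of lines
-/

set_option autoImplicit false

open Module

namespace Pool.Agent.Helper29.CC

open Pool.Agent.Helper80.KC

/-- the antipode of a body -/
def antipode {n : ℕ} (C : Set (E n)) : Set (E n) := {x | -x ∈ C}

theorem dt_inner (x y : E (3 + 1)) : dt (fun i => x i) (fun i => y i) = inner ℝ x y := by
  rw [PiLp.inner_apply]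
  have h : ∑ i : Fin (3 + 1), inner ℝ (x i) (y i) =
      inner ℝ (x 0) (y 0) + inner ℝ (x 1) (y 1) + inner ℝ (x 2) (y 2) + inner ℝ (x 3) (y 3) :=
    Fin.sum_univ_four fun i : Fin 4 => inner ℝ (x i) (y i)
  rw [h]
  simp only [dt, RCLike.inner_apply, conj_trivial]
  ring

theorem dt_self_nonneg (v : Fin 4 → ℝ) : 0 ≤ dt v v := by
  have h0 := mul_self_nonneg (v 0)
  have h1 := mul_self_nonneg (v 1)
  have h2 := mul_self_nonneg (v 2)
  have h3 := mul_self_nonneg (v 3)
  simp only [dt]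
  linarith

theorem dt_norm (x : E (3 + 1)) : dt (fun i => x i) (fun i => x i) = ‖x‖ ^ 2 := by
  rw [dt_inner, real_inner_self_eq_norm_sq]

/-- Bessel -/
theorem bessel (u n w : Fin 4 → ℝ) (hu : dt u u = 1) (hn : dt n n = 1) (hun : dt u n = 0)
    (hw : dt w w = 1) : dt u w ^ 2 + dt n w ^ 2 ≤ 1 := by
  have h0 : 0 ≤ dt (fun i => w i - dt u w * u i - dt n w * n i)
      (fun i => w i - dt u w * u i - dt n w * n i) := dt_self_nonneg _
  have e : dt (fun i => w i - dt u w * u i - dt n w * n i)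
      (fun i => w i - dt u w * u i - dt n w * n i) =
      dt w w - 2 * dt u w * dt u w - 2 * dt n w * dt n w + dt u w ^ 2 * dt u u +
        dt n w ^ 2 * dt n n + 2 * dt u w * dt n w * dt u n := by
    generalize ha : dt u w = a
    generalize hc : dt n w = c
    have ha' := ha
    have hc' := hc
    simp only [dt] at ha' hc' ⊢
    linear_combination (-2 * a) * ha' + (-2 * c) * hc'
  rw [e, hu, hn, hun, hw] at h0
  nlinarith

/-- the algebra of a pair of disjoint tubes -/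
theorem pair_alg (t a b c : ℝ) (ha : a ^ 2 + c ^ 2 ≤ 1) (hb : b ^ 2 + c ^ 2 ≤ 1)
    (h : ∀ s r : ℝ, 4 ≤ 8 - 8 * t + s ^ 2 + r ^ 2 - 4 * s * b - 4 * r * a - 2 * s * r * c) :
    a ^ 2 + b ^ 2 + 2 * (a * b * c) ≤ (1 - c ^ 2) * (1 - 2 * t) := by
  have hk : 0 ≤ 1 - c ^ 2 := by nlinarith
  rcases hk.lt_or_eq with hk | hk
  · obtain ⟨τ, hτ⟩ : ∃ τ : ℝ, τ * (1 - c ^ 2) = 1 := ⟨(1 - c ^ 2)⁻¹, inv_mul_cancel₀ hk.ne'⟩
    have h1 := h (2 * τ * (b + a * c)) (2 * τ * (a + b * c))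
    have e : 8 - 8 * t + (2 * τ * (b + a * c)) ^ 2 + (2 * τ * (a + b * c)) ^ 2 -
        4 * (2 * τ * (b + a * c)) * b - 4 * (2 * τ * (a + b * c)) * a -
        2 * (2 * τ * (b + a * c)) * (2 * τ * (a + b * c)) * c =
        8 - 8 * t + 4 * τ * (τ * (1 - c ^ 2)) * (a ^ 2 + b ^ 2 + 2 * (a * b * c)) -
          8 * τ * (a ^ 2 + b ^ 2 + 2 * (a * b * c)) := by ring
    rw [e, hτ] at h1
    have h2 := mul_le_mul_of_nonneg_left h1 hk.le
    have e2 : (1 - c ^ 2) * (8 - 8 * t + 4 * τ * 1 * (a ^ 2 + b ^ 2 + 2 * (a * b * c)) -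
        8 * τ * (a ^ 2 + b ^ 2 + 2 * (a * b * c))) =
        (1 - c ^ 2) * (8 - 8 * t) - 4 * (τ * (1 - c ^ 2)) * (a ^ 2 + b ^ 2 + 2 * (a * b * c)) := by
      ring
    rw [e2, hτ] at h2
    linarith
  · have ha0 : a = 0 := by
      have : a ^ 2 ≤ 0 := by linarith
      nlinarith
    have hb0 : b = 0 := by
      have : b ^ 2 ≤ 0 := by linarith
      nlinarith
    rw [← hk, ha0, hb0]
    norm_num

/-- a touching `1`-cylinder of `ℝ⁴` and its axis -/
theorem axis (C : Set (E (3 + 1))) (h1 : IsCylinder 1 C) (h2 : Touches C) :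
    ∃ (L : AffineSubspace ℝ (E (3 + 1))) (u n : E (3 + 1)),
      (L : Set (E (3 + 1))).Nonempty ∧
      C = {x | Metric.infDist x (L : Set (E (3 + 1))) ≤ 1} ∧
      Metric.infDist 0 (L : Set (E (3 + 1))) = 2 ∧
      ‖u‖ = 1 ∧ ‖n‖ = 1 ∧ inner ℝ u n = 0 ∧ ∀ s : ℝ, (2 : ℝ) • u + s • n ∈ L := by
  obtain ⟨L, hne, hdim, rfl⟩ := h1
  have hd := (Pool.Agent.Helper69.KC.touches_iff L hne).1 h2
  obtain ⟨q, hq, hqo, hqn⟩ := Pool.Agent.Helper4.KC.exists_foot L hne
  obtain ⟨v, hv, -⟩ := finrank_eq_one_iff'.1 hdim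
  have hv' : (v : E (3 + 1)) ≠ 0 := fun h => hv (Subtype.ext h)
  have hvn : ‖(v : E (3 + 1))‖ ≠ 0 := norm_ne_zero_iff.2 hv'
  refine ⟨L, (2⁻¹ : ℝ) • q, ‖(v : E (3 + 1))‖⁻¹ • (v : E (3 + 1)), hne, rfl, hd, ?_, ?_, ?_, ?_⟩
  · rw [norm_smul, hqn, hd]
    norm_num
  · rw [norm_smul, norm_inv, norm_norm, inv_mul_cancel₀ hvn]
  · rw [inner_smul_left, inner_smul_right]
    have h3 : inner ℝ (v : E (3 + 1)) q = 0 := (Submodule.mem_orthogonal _ _).1 hqo _ v.2
    rw [real_inner_comm] at h3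
    rw [h3]
    simp
  · intro s
    have h3 : s • ‖(v : E (3 + 1))‖⁻¹ • (v : E (3 + 1)) ∈ L.direction :=
      L.direction.smul_mem _ (L.direction.smul_mem _ v.2)
    have h4 := AffineSubspace.vadd_mem_of_mem_direction h3 hq
    rw [vadd_eq_add, add_comm _ q] at h4
    rwa [smul_smul, mul_inv_cancel₀ (two_ne_zero), one_smul]

/-- disjoint from the antipode -/
theorem disjoint_anti {n : ℕ} (L L' : AffineSubspace ℝ (E n)) (hL : (L : Set (E n)).Nonempty)
    (h : Disjoint (interior {x : E n | Metric.infDist x (L : Set (E n)) ≤ 1})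
      (interior (antipode {x : E n | Metric.infDist x (L' : Set (E n)) ≤ 1}))) :
    ∀ x ∈ L, ∀ y ∈ L', 2 ≤ dist x (-y) := by
  intro x hx y hy
  by_contra hlt
  push Not at hlt
  have h1 : {z : E n | Metric.infDist (-z) (L' : Set (E n)) < 1} ⊆
      interior (antipode {x : E n | Metric.infDist x (L' : Set (E n)) ≤ 1}) := by
    apply interior_maximal
    · intro z hz
      have hz1 : Metric.infDist (-z) (L' : Set (E n)) < 1 := hz
      exact hz1.le
    · exact isOpen_lt ((Metric.continuous_infDist_pt _).comp continuous_neg) continuous_const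
  rw [Pool.Agent.Helper69.KC.interior_body L hL, Set.disjoint_left] at h
  refine h (a := midpoint ℝ x (-y)) ?_ (h1 ?_)
  · change Metric.infDist (midpoint ℝ x (-y)) (L : Set (E n)) < 1
    refine lt_of_le_of_lt (Metric.infDist_le_dist_of_mem hx) ?_
    rw [dist_midpoint_left]
    norm_num
    linarith
  · change Metric.infDist (-(midpoint ℝ x (-y))) (L' : Set (E n)) < 1
    refine lt_of_le_of_lt (Metric.infDist_le_dist_of_mem hy) ?_
    have e : dist (-(midpoint ℝ x (-y))) y = dist (midpoint ℝ x (-y)) (-y) := by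
      rw [dist_eq_norm, dist_eq_norm, ← norm_neg]
      congr 1
      abel
    rw [e, dist_midpoint_right]
    norm_num
    linarith

/-- expansion of the distance of two points on two lines -/
theorem expand (u n u' n' : E (3 + 1)) (hu : ‖u‖ = 1) (hn : ‖n‖ = 1) (hu' : ‖u'‖ = 1)
    (hn' : ‖n'‖ = 1) (hun : inner ℝ u n = 0) (hun' : inner ℝ u' n' = 0) (s r : ℝ)
    (h : 2 ≤ dist ((2 : ℝ) • u + s • n) ((2 : ℝ) • u' + r • n')) :
    4 ≤ 8 - 8 * inner ℝ u u' + s ^ 2 + r ^ 2 - 4 * s * inner ℝ u' n - 4 * r * inner ℝ u n' -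
      2 * s * r * inner ℝ n n' := by
  have h1 : (4 : ℝ) ≤ ‖(2 : ℝ) • u + s • n - ((2 : ℝ) • u' + r • n')‖ ^ 2 := by
    rw [← dist_eq_norm]
    nlinarith
  rw [← dt_norm] at h1
  have e : dt (fun i => ((2 : ℝ) • u + s • n - ((2 : ℝ) • u' + r • n')) i)
      (fun i => ((2 : ℝ) • u + s • n - ((2 : ℝ) • u' + r • n')) i) =
      4 * dt (fun i => u i) (fun i => u i) + s ^ 2 * dt (fun i => n i) (fun i => n i) +
      4 * dt (fun i => u' i) (fun i => u' i) + r ^ 2 * dt (fun i => n' i) (fun i => n' i) +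
      4 * s * dt (fun i => u i) (fun i => n i) - 8 * dt (fun i => u i) (fun i => u' i) -
      4 * r * dt (fun i => u i) (fun i => n' i) - 4 * s * dt (fun i => u' i) (fun i => n i) -
      2 * s * r * dt (fun i => n i) (fun i => n' i) + 4 * r * dt (fun i => u' i) (fun i => n' i) := by
    simp only [dt, PiLp.sub_apply, PiLp.add_apply, PiLp.smul_apply, smul_eq_mul]
    ring
  rw [e] at h1
  simp only [dt_norm, dt_inner, hu, hn, hu', hn', hun, hun'] at h1
  linarith

/-- seven cylinders with all `±` disjoint do not exist -/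
theorem le_six (N : ℕ) (C : Fin N → Set (E (3 + 1)))
    (hC : ∀ i, IsCylinder 1 (C i) ∧ Touches (C i))
    (h1 : ∀ i i', i ≠ i' → Disjoint (interior (C i)) (interior (C i')))
    (h2 : ∀ i i', i ≠ i' → Disjoint (interior (C i)) (interior (antipode (C i')))) : N ≤ 6 := by
  choose L u n hne hCL hd hu hn hun hL using fun i => axis (C i) (hC i).1 (hC i).2
  refine count N (fun i j => u i j) (fun i j => n i j) (fun i => ?_) (fun i => ?_) (fun i => ?_) ?_
  · rw [dt_norm, hu i]; norm_num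
  · rw [dt_norm, hn i]; norm_num
  · rw [dt_inner, hun i]
  intro i j hij
  have hd1 : ∀ x ∈ L i, ∀ y ∈ L j, 2 ≤ dist x y := by
    have := h1 i j hij
    rw [hCL i, hCL j, Pool.Agent.Helper69.KC.disjoint_iff' _ _ (hne i) (hne j)] at this
    exact this
  have hd2 : ∀ x ∈ L i, ∀ y ∈ L j, 2 ≤ dist x (-y) := by
    have := h2 i j hij
    rw [hCL i, hCL j] at this
    exact disjoint_anti _ _ (hne i) this
  have k1 : ∀ s r : ℝ, 4 ≤ 8 - 8 * inner ℝ (u i) (u j) + s ^ 2 + r ^ 2 -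
      4 * s * inner ℝ (u j) (n i) - 4 * r * inner ℝ (u i) (n j) -
      2 * s * r * inner ℝ (n i) (n j) := fun s r =>
    expand _ _ _ _ (hu i) (hn i) (hu j) (hn j) (hun i) (hun j) s r (hd1 _ (hL i s) _ (hL j r))
  have k2 : ∀ s r : ℝ, 4 ≤ 8 - 8 * (-inner ℝ (u i) (u j)) + s ^ 2 + r ^ 2 -
      4 * s * (-inner ℝ (u j) (n i)) - 4 * r * (-inner ℝ (u i) (n j)) -
      2 * s * r * (-inner ℝ (n i) (n j)) := by
    intro s r
    have h3 := hd2 _ (hL i s) _ (hL j r)
    have e3 : -((2 : ℝ) • u j + r • n j) = (2 : ℝ) • (-u j) + r • (-n j) := by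
      rw [smul_neg, smul_neg, neg_add]
    rw [e3] at h3
    have h4 := expand (u i) (n i) (-u j) (-n j) (hu i) (hn i) (by rw [norm_neg, hu j])
      (by rw [norm_neg, hn j]) (hun i) (by rw [inner_neg_neg, hun j]) s r h3
    simp only [inner_neg_right, inner_neg_left] at h4
    exact h4
  have b1 : inner ℝ (u i) (n j) ^ 2 + inner ℝ (n i) (n j) ^ 2 ≤ 1 := by
    have := bessel (fun l => u i l) (fun l => n i l) (fun l => n j l)
      (by rw [dt_norm, hu i]; norm_num) (by rw [dt_norm, hn i]; norm_num)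
      (by rw [dt_inner, hun i]) (by rw [dt_norm, hn j]; norm_num)
    rwa [dt_inner, dt_inner] at this
  have b2 : inner ℝ (u j) (n i) ^ 2 + inner ℝ (n i) (n j) ^ 2 ≤ 1 := by
    have := bessel (fun l => u j l) (fun l => n j l) (fun l => n i l)
      (by rw [dt_norm, hu j]; norm_num) (by rw [dt_norm, hn j]; norm_num)
      (by rw [dt_inner, hun j]) (by rw [dt_norm, hn i]; norm_num)
    rwa [dt_inner, dt_inner, real_inner_comm (n i) (n j)] at this
  have a1 := pair_alg _ _ _ _ b1 b2 k1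
  have a2 := pair_alg (-inner ℝ (u i) (u j)) (-inner ℝ (u i) (n j)) (-inner ℝ (u j) (n i))
    (-inner ℝ (n i) (n j)) (by rw [neg_sq, neg_sq]; exact b1) (by rw [neg_sq, neg_sq]; exact b2) k2
  simp only [dt_inner]
  generalize inner ℝ (u i) (u j) = t at *
  generalize inner ℝ (u i) (n j) = a at *
  generalize inner ℝ (u j) (n i) = b at *
  generalize inner ℝ (n i) (n j) = c at *
  have t1 := k1 0 0
  have t2 := k2 0 0
  refine G_le t a b c (abs_le.2 ⟨by linarith, by linarith⟩) (by nlinarith [sq_nonneg a])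
    (by linarith) ?_
  have e5 : -a * -b * -c = -(a * b * c) := by ring
  rw [e5, neg_sq, neg_sq, neg_sq] at a2
  linarith

end Pool.Agent.Helper29.CC
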