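import Mathlib

/-!
# Positive semidefinite kernels for lines in `ℝ⁴`

`K v w = (v·w)⁴ - (3/4)(v·w)²|v|²|w|² + (1/16)|v|⁴|w|⁴` is positive semidefinite on `ℝ⁴`.
-/

set_option autoImplicit false

namespace Pool.Agent.Helper29.CC

/-- positive semidefinite kernels -/
def PSD {V : Type} (K : V → V → ℝ) : Prop :=
  ∀ (ι : Type) [Fintype ι] (x : ι → ℝ) (v : ι → V),
    0 ≤ ∑ i, ∑ j, x i * x j * K (v i) (v j)

theorem PSD.rank {V : Type} (h : V → ℝ) : PSD fun v w => h v * h w := by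
  intro ι _ x v
  have e : ∑ i, ∑ j, x i * x j * (h (v i) * h (v j)) = (∑ i, x i * h (v i)) ^ 2 := by
    rw [sq, Finset.sum_mul_sum]
    refine Finset.sum_congr rfl fun i _ => Finset.sum_congr rfl fun j _ => ?_
    ring
  rw [e]
  positivity

theorem PSD.add {V : Type} {K L : V → V → ℝ} (hK : PSD K) (hL : PSD L) :
    PSD fun v w => K v w + L v w := by
  intro ι _ x v
  have h1 := hK ι x v
  have h2 := hL ι x v
  have e : ∑ i, ∑ j, x i * x j * (K (v i) (v j) + L (v i) (v j)) =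
      (∑ i, ∑ j, x i * x j * K (v i) (v j)) + ∑ i, ∑ j, x i * x j * L (v i) (v j) := by
    rw [← Finset.sum_add_distrib]
    refine Finset.sum_congr rfl fun i _ => ?_
    rw [← Finset.sum_add_distrib]
    refine Finset.sum_congr rfl fun j _ => ?_
    ring
  rw [e]
  linarith

theorem PSD.smul {V : Type} {K : V → V → ℝ} (c : ℝ) (hc : 0 ≤ c) (hK : PSD K) :
    PSD fun v w => c * K v w := by
  intro ι _ x v
  have h1 := hK ι x v
  have e : ∑ i, ∑ j, x i * x j * (c * K (v i) (v j)) =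
      c * ∑ i, ∑ j, x i * x j * K (v i) (v j) := by
    rw [Finset.mul_sum]
    refine Finset.sum_congr rfl fun i _ => ?_
    rw [Finset.mul_sum]
    refine Finset.sum_congr rfl fun j _ => ?_
    ring
  rw [e]
  positivity

/-- a complex function as two real functions -/
theorem PSD.pair {V : Type} {K : V → V → ℝ} (c : ℝ) (hc : 0 ≤ c) (f g : V → ℝ) (hK : PSD K) :
    PSD fun v w => K v w + c * (f v * f w + g v * g w) :=
  hK.add (PSD.smul c hc ((PSD.rank f).add (PSD.rank g)))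

/-- dot product of `ℝ⁴` -/
def dt (v w : Fin 4 → ℝ) : ℝ := v 0 * w 0 + v 1 * w 1 + v 2 * w 2 + v 3 * w 3

/-- the zonal kernel of the harmonic quartics of `ℝ⁴` -/
noncomputable def K (v w : Fin 4 → ℝ) : ℝ :=
  dt v w ^ 4 - 3 / 4 * dt v w ^ 2 * (dt v v * dt w w) + 1 / 16 * (dt v v ^ 2 * dt w w ^ 2)

section

variable (v : Fin 4 → ℝ)

def zz : ℝ := v 0 ^ 2 + v 1 ^ 2
def ww : ℝ := v 2 ^ 2 + v 3 ^ 2
def a1 : ℝ := v 0 ^ 2 - v 1 ^ 2
def a2 : ℝ := 2 * v 0 * v 1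
def b1 : ℝ := v 2 ^ 2 - v 3 ^ 2
def b2 : ℝ := 2 * v 2 * v 3
def p1 : ℝ := v 0 * v 2 - v 1 * v 3
def p2 : ℝ := v 0 * v 3 + v 1 * v 2
def m1 : ℝ := v 0 * v 2 + v 1 * v 3
def m2 : ℝ := v 1 * v 2 - v 0 * v 3

end

theorem psdK : PSD K := by
  have h0 : PSD fun v w : Fin 4 → ℝ => 1 / 16 *
      ((zz v ^ 2 - 4 * zz v * ww v + ww v ^ 2) * (zz w ^ 2 - 4 * zz w * ww w + ww w ^ 2)) :=
    PSD.smul _ (by norm_num) (PSD.rank fun v => zz v ^ 2 - 4 * zz v * ww v + ww v ^ 2)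
  have h1 := h0.pair (1 / 8) (by norm_num) (fun v => a1 v ^ 2 - a2 v ^ 2) (fun v => 2 * a1 v * a2 v)
  have h2 := h1.pair (1 / 8) (by norm_num) (fun v => b1 v ^ 2 - b2 v ^ 2) (fun v => 2 * b1 v * b2 v)
  have h3 := h2.pair (1 / 2) (by norm_num) (fun v => a1 v * p1 v - a2 v * p2 v)
    (fun v => a1 v * p2 v + a2 v * p1 v)
  have h4 := h3.pair (1 / 2) (by norm_num) (fun v => a1 v * m1 v - a2 v * m2 v)
    (fun v => a1 v * m2 v + a2 v * m1 v)
  have h5 := h4.pair (1 / 2) (by norm_num) (fun v => b1 v * p1 v - b2 v * p2 v)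
    (fun v => b1 v * p2 v + b2 v * p1 v)
  have h6 := h5.pair (1 / 2) (by norm_num) (fun v => b1 v * m1 v + b2 v * m2 v)
    (fun v => b1 v * m2 v - b2 v * m1 v)
  have h7 := h6.pair (3 / 4) (by norm_num) (fun v => p1 v ^ 2 - p2 v ^ 2) (fun v => 2 * p1 v * p2 v)
  have h8 := h7.pair (3 / 4) (by norm_num) (fun v => m1 v ^ 2 - m2 v ^ 2) (fun v => 2 * m1 v * m2 v)
  have h9 := h8.pair (1 / 8) (by norm_num) (fun v => a1 v * (zz v - 3 * ww v))
    (fun v => a2 v * (zz v - 3 * ww v))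
  have h10 := h9.pair (1 / 8) (by norm_num) (fun v => b1 v * (ww v - 3 * zz v))
    (fun v => b2 v * (ww v - 3 * zz v))
  have h11 := h10.pair (3 / 4) (by norm_num) (fun v => p1 v * (zz v - ww v))
    (fun v => p2 v * (zz v - ww v))
  have h12 := h11.pair (3 / 4) (by norm_num) (fun v => m1 v * (zz v - ww v))
    (fun v => m2 v * (zz v - ww v))
  have e : K = fun v w : Fin 4 → ℝ => 1 / 16 *
      ((zz v ^ 2 - 4 * zz v * ww v + ww v ^ 2) * (zz w ^ 2 - 4 * zz w * ww w + ww w ^ 2)) +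
      1 / 8 * ((a1 v ^ 2 - a2 v ^ 2) * (a1 w ^ 2 - a2 w ^ 2) +
        (2 * a1 v * a2 v) * (2 * a1 w * a2 w)) +
      1 / 8 * ((b1 v ^ 2 - b2 v ^ 2) * (b1 w ^ 2 - b2 w ^ 2) +
        (2 * b1 v * b2 v) * (2 * b1 w * b2 w)) +
      1 / 2 * ((a1 v * p1 v - a2 v * p2 v) * (a1 w * p1 w - a2 w * p2 w) +
        (a1 v * p2 v + a2 v * p1 v) * (a1 w * p2 w + a2 w * p1 w)) +
      1 / 2 * ((a1 v * m1 v - a2 v * m2 v) * (a1 w * m1 w - a2 w * m2 w) +
        (a1 v * m2 v + a2 v * m1 v) * (a1 w * m2 w + a2 w * m1 w)) +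
      1 / 2 * ((b1 v * p1 v - b2 v * p2 v) * (b1 w * p1 w - b2 w * p2 w) +
        (b1 v * p2 v + b2 v * p1 v) * (b1 w * p2 w + b2 w * p1 w)) +
      1 / 2 * ((b1 v * m1 v + b2 v * m2 v) * (b1 w * m1 w + b2 w * m2 w) +
        (b1 v * m2 v - b2 v * m1 v) * (b1 w * m2 w - b2 w * m1 w)) +
      3 / 4 * ((p1 v ^ 2 - p2 v ^ 2) * (p1 w ^ 2 - p2 w ^ 2) +
        (2 * p1 v * p2 v) * (2 * p1 w * p2 w)) +
      3 / 4 * ((m1 v ^ 2 - m2 v ^ 2) * (m1 w ^ 2 - m2 w ^ 2) +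
        (2 * m1 v * m2 v) * (2 * m1 w * m2 w)) +
      1 / 8 * ((a1 v * (zz v - 3 * ww v)) * (a1 w * (zz w - 3 * ww w)) +
        (a2 v * (zz v - 3 * ww v)) * (a2 w * (zz w - 3 * ww w))) +
      1 / 8 * ((b1 v * (ww v - 3 * zz v)) * (b1 w * (ww w - 3 * zz w)) +
        (b2 v * (ww v - 3 * zz v)) * (b2 w * (ww w - 3 * zz w))) +
      3 / 4 * ((p1 v * (zz v - ww v)) * (p1 w * (zz w - ww w)) +
        (p2 v * (zz v - ww v)) * (p2 w * (zz w - ww w))) +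
      3 / 4 * ((m1 v * (zz v - ww v)) * (m1 w * (zz w - ww w)) +
        (m2 v * (zz v - ww v)) * (m2 w * (zz w - ww w))) := by
    funext v w
    simp only [K, dt, zz, ww, a1, a2, b1, b2, p1, p2, m1, m2]
    ring
  rw [e]
  exact h12

/-- the quadratic part: `⟨Q, Q'⟩` with `Q = u uᵀ + α n nᵀ - ((1+α)/4) I` -/
noncomputable def Q (α : ℝ) (x : (Fin 4 → ℝ) × (Fin 4 → ℝ)) (p q : Fin 4) : ℝ :=
  x.1 p * x.1 q + α * (x.2 p * x.2 q) - (1 + α) / 4 * (if p = q then 1 else 0)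

theorem PSD.sum {V κ : Type} (s : Finset κ) (K : κ → V → V → ℝ) (h : ∀ k ∈ s, PSD (K k)) :
    PSD fun v w => ∑ k ∈ s, K k v w := by
  classical
  induction s using Finset.induction_on with
  | empty =>
    intro ι _ x v
    simp
  | insert a s ha ih =>
    have h1 := h a (Finset.mem_insert_self a s)
    have h2 := ih fun k hk => h k (Finset.mem_insert_of_mem hk)
    have e : (fun v w => ∑ k ∈ insert a s, K k v w) =
        fun v w => K a v w + ∑ k ∈ s, K k v w := by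
      funext v w
      rw [Finset.sum_insert ha]
    rw [e]
    exact h1.add h2

theorem psdQ (α : ℝ) : PSD fun x y => ∑ p, ∑ q, Q α x p q * Q α y p q := by
  have h : ∀ p ∈ (Finset.univ : Finset (Fin 4)),
      PSD fun x y => ∑ q, Q α x p q * Q α y p q := fun p _ =>
    PSD.sum Finset.univ (fun q x y => Q α x p q * Q α y p q) fun q _ => PSD.rank fun x => Q α x p q
  exact PSD.sum Finset.univ (fun p x y => ∑ q, Q α x p q * Q α y p q) h

/-- value of the quadratic part -/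
theorem Q_val (α : ℝ) (u n u' n' : Fin 4 → ℝ) (hu : dt u u = 1) (hn : dt n n = 1)
    (hu' : dt u' u' = 1) (hn' : dt n' n' = 1) :
    ∑ p, ∑ q, Q α (u, n) p q * Q α (u', n') p q =
      (dt u u' ^ 2 - 1 / 4) + α * (dt u n' ^ 2 + dt u' n ^ 2 - 1 / 2) +
        α ^ 2 * (dt n n' ^ 2 - 1 / 4) := by
  have e : ∑ p, ∑ q, Q α (u, n) p q * Q α (u', n') p q =
      dt u u' ^ 2 + α * (dt u n' ^ 2 + dt u' n ^ 2) + α ^ 2 * dt n n' ^ 2 -
        (1 + α) / 4 * (dt u u + α * dt n n) - (1 + α) / 4 * (dt u' u' + α * dt n' n') +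
        (1 + α) ^ 2 / 4 := by
    simp only [Q, Fin.sum_univ_four, dt, Fin.isValue]
    simp only [Fin.reduceEq, if_true, if_false, Fin.isValue]
    ring
  rw [e, hu, hn, hu', hn']
  ring

end Pool.Agent.Helper29.CC
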