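import Pool.Agent.Helper29.CC.Geom

/-!
# Nearly centrally symmetric families
-/

set_option autoImplicit false

open Module

namespace Pool.Agent.Helper29.CC

open Pool.Agent.Helper80.KC

theorem antipode_antipode {n : ℕ} (C : Set (E n)) : antipode (antipode C) = C := by
  ext x
  simp only [antipode, Set.mem_ofPred_eq, neg_neg]

theorem interior_antipode {n : ℕ} (C : Set (E n)) :
    interior (antipode C) = antipode (interior C) := by
  have h := (Homeomorph.neg (E n)).preimage_interior C
  exact h.symm

theorem disjoint_antipode {n : ℕ} (C D : Set (E n))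
    (h : Disjoint (interior (antipode C)) (interior D)) :
    Disjoint (interior C) (interior (antipode D)) := by
  rw [interior_antipode] at h ⊢
  rw [Set.disjoint_left] at h ⊢
  intro x hx hx'
  refine h (a := -x) ?_ hx'
  change - -x ∈ interior C
  rwa [neg_neg]

theorem ne_antipode (C : Set (E (3 + 1))) (h1 : IsCylinder 1 C) (h2 : Touches C) :
    antipode C ≠ C := by
  obtain ⟨L, u, n, hne, hC, hd, -⟩ := axis C h1 h2
  intro h
  obtain ⟨x, hx⟩ := hne
  have hx0 : Metric.infDist x (L : Set (E (3 + 1))) = 0 := Metric.infDist_zero_of_mem hx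
  have hxC : x ∈ C := by
    rw [hC]
    change Metric.infDist x (L : Set (E (3 + 1))) ≤ 1
    rw [hx0]
    norm_num
  have hnx : -x ∈ C := by
    rw [← h] at hxC
    exact hxC
  rw [hC] at hnx
  have h3 : Metric.infDist (-x) (L : Set (E (3 + 1))) ≤ 1 := hnx
  obtain ⟨y, hy, hxy⟩ := Pool.Agent.Helper69.KC.exists_foot L ⟨x, hx⟩ (-x)
  have h4 : midpoint ℝ x y ∈ L := AffineMap.lineMap_mem _ hx hy
  have h5 : Metric.infDist 0 (L : Set (E (3 + 1))) ≤ dist 0 (midpoint ℝ x y) :=
    Metric.infDist_le_dist_of_mem h4
  have h6 : dist 0 (midpoint ℝ x y) = dist (-x) y / 2 := by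
    rw [dist_zero_left, midpoint_eq_smul_add, norm_smul, dist_eq_norm, ← norm_neg (-x - y)]
    have : -(-x - y) = x + y := by abel
    rw [this, invOf_eq_inv, norm_inv]
    norm_num
    ring
  rw [h6, hd, ← hxy] at h5
  linarith

theorem interior_nonempty (C : Set (E (3 + 1))) (h1 : IsCylinder 1 C) : (interior C).Nonempty := by
  obtain ⟨L, hne, -, rfl⟩ := h1
  rw [Pool.Agent.Helper69.KC.interior_body L hne]
  obtain ⟨x, hx⟩ := hne
  refine ⟨x, ?_⟩
  change Metric.infDist x (L : Set (E (3 + 1))) < 1
  rw [Metric.infDist_zero_of_mem hx]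
  norm_num

/-- **Main theorem.** -/
theorem paired_le (k : ℕ) (C : Fin k → Set (E (3 + 1)))
    (hC : ∀ i, IsCylinder 1 (C i) ∧ Touches (C i))
    (hd : ∀ i i', i ≠ i' → Disjoint (interior (C i)) (interior (C i'))) (hk : 13 ≤ k) :
    {i | ∃ i', C i' = antipode (C i)}.ncard ≤ 10 := by
  classical
  have hinj : ∀ i i', C i = C i' → i = i' := by
    intro i i' h
    by_contra hne
    have h1 := hd i i' hne
    rw [← h, disjoint_self] at h1
    have h2 := interior_nonempty (C i) (hC i).1
    rw [h1] at h2
    exact Set.not_nonempty_empty h2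
  set S : Finset (Fin k) := Finset.univ.filter fun i => ∃ i', C i' = antipode (C i) with hS
  have hSn : {i | ∃ i', C i' = antipode (C i)}.ncard = S.card := by
    rw [← Set.ncard_coe_finset S]
    congr 1
    ext i
    simp [hS]
  rw [hSn]
  by_contra hcon
  push Not at hcon
  have hSmem : ∀ i, i ∈ S ↔ ∃ i', C i' = antipode (C i) := by
    intro i
    simp [hS]
  -- a maximal subset without antipodal pairs
  let P : Finset (Finset (Fin k)) := S.powerset.filter fun T => ∀ i ∈ T, ∀ j ∈ T,
    C j ≠ antipode (C i)
  have hPne : P.Nonempty := ⟨∅, by simp [P]⟩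
  obtain ⟨T, hTP, hTmax⟩ := Finset.exists_max_image P Finset.card hPne
  have hTP' : T ⊆ S ∧ ∀ i ∈ T, ∀ j ∈ T, C j ≠ antipode (C i) := by
    simpa [P] using hTP
  obtain ⟨hTS, hT⟩ := hTP'
  have hex : ∀ i ∈ S \ T, ∃ y ∈ T, C y = antipode (C i) := by
    intro i hi
    rw [Finset.mem_sdiff] at hi
    by_contra hno
    push Not at hno
    have hmem : insert i T ∈ P := by
      rw [Finset.mem_filter, Finset.mem_powerset]
      refine ⟨Finset.insert_subset hi.1 hTS, ?_⟩
      intro x hx y hy
      rw [Finset.mem_insert] at hx hy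
      rcases hx with rfl | hx
      · rcases hy with rfl | hy
        · exact (ne_antipode _ (hC _).1 (hC _).2).symm
        · exact hno y hy
      · rcases hy with rfl | hy
        · intro h
          refine hno x hx ?_
          rw [h, antipode_antipode]
        · exact hT x hx y hy
    have := hTmax _ hmem
    rw [Finset.card_insert_of_notMem hi.2] at this
    omega
  choose! f hfT hf using hex
  have hcard1 : (S \ T).card ≤ T.card := by
    refine Finset.card_le_card_of_injOn f (fun i hi => hfT i hi) ?_
    intro i hi j hj hij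
    have e1 := hf i hi
    have e2 := hf j hj
    have hij' : f i = f j := hij
    rw [hij'] at e1
    have e3 : antipode (C i) = antipode (C j) := e1.symm.trans e2
    have e4 := congrArg antipode e3
    rw [antipode_antipode, antipode_antipode] at e4
    exact hinj _ _ e4
  have hcard2 : (S \ T).card = S.card - T.card := Finset.card_sdiff_of_subset hTS
  have hTS' : T.card ≤ S.card := Finset.card_le_card hTS
  have hT6 : 6 ≤ T.card := by omega
  -- applying the bound to a set of cylinders
  have key : ∀ H : Finset (Fin k),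
      (∀ i ∈ H, ∀ j ∈ H, i ≠ j → Disjoint (interior (C i)) (interior (antipode (C j)))) →
      H.card ≤ 6 := by
    intro H hH
    let e := H.equivFin.symm
    refine le_six H.card (fun l => C (e l)) (fun l => hC _) ?_ ?_
    · intro l l' hl
      refine hd _ _ ?_
      intro h
      exact hl (e.injective (Subtype.ext h))
    · intro l l' hl
      refine hH _ (e l).2 _ (e l').2 ?_
      intro h
      exact hl (e.injective (Subtype.ext h))
  have hTT : ∀ i ∈ T, ∀ j ∈ T, i ≠ j →
      Disjoint (interior (C i)) (interior (antipode (C j))) := by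
    intro i hi j hj hij
    obtain ⟨j', hj'⟩ := (hSmem j).1 (hTS hj)
    rw [← hj']
    refine hd _ _ ?_
    rintro rfl
    exact hT j hj i hi hj'
  have hT6' := key T hTT
  have hlt : ∃ x, x ∉ S := by
    by_contra hno
    push Not at hno
    have : S = Finset.univ := Finset.eq_univ_iff_forall.2 hno
    rw [this, Finset.card_univ, Fintype.card_fin] at hcard2 hcon
    rw [this] at hcard1
    omega
  obtain ⟨x, hx⟩ := hlt
  have hxT : x ∉ T := fun h => hx (hTS h)
  have h7 := key (insert x T) (by
    intro i hi j hj hij
    rw [Finset.mem_insert] at hi hj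
    rcases hi with rfl | hi
    · rcases hj with rfl | hj
      · exact absurd rfl hij
      · obtain ⟨j', hj'⟩ := (hSmem j).1 (hTS hj)
        rw [← hj']
        refine hd _ _ ?_
        rintro rfl
        refine hx ((hSmem _).2 ⟨j, ?_⟩)
        rw [hj', antipode_antipode]
    · rcases hj with rfl | hj
      · obtain ⟨i', hi'⟩ := (hSmem i).1 (hTS hi)
        refine disjoint_antipode _ _ ?_
        rw [← hi']
        refine hd _ _ ?_
        rintro rfl
        refine hx ((hSmem _).2 ⟨i, ?_⟩)
        rw [hi', antipode_antipode]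
      · exact hTT i hi j hj hij)
  rw [Finset.card_insert_of_notMem hxT] at h7
  omega

end Pool.Agent.Helper29.CC
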